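import Pool.Agent.MP_560646_mp.Hz.All

namespace Pool.Agent.Results.MP_560646_mp.RenyiOneSided

open Pool.Agent.MP_560646_mp
open scoped ComplexOrder

theorem result {n m : Type} [Fintype n] [DecidableEq n] [Fintype m] [DecidableEq m]
    (α : ℝ) (h₀ : 0 < α) (h₁ : α ≠ 1)
    (σ : ZMod 2 → Matrix n n ℂ) (η : ZMod 2 → Matrix m m ℂ)
    (hσ : ∀ x, (σ x).PosSemidef ∧ Matrix.trace (σ x) = 1)
    (hη : ∀ x, (η x).PosSemidef ∧ Matrix.trace (η x) = 1)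
    (h : Commute (η 0) (η 1) ∨ ∃ c : ℝ, ∀ x, η x * η x = c • η x) :
    Hdown α (cq σ) ∈ Set.Icc 0 (Real.log 2) ∧ Hdown α (cq η) ∈ Set.Icc 0 (Real.log 2) ∧
    (α ≤ 2 ∨ 3 ≤ α →
      bound α (Hdown α (cq σ)) (Hdown α (cq η)) ≤ Hdown α (combine σ η)) ∧
    (2 ≤ α → α ≤ 3 →
      Hdown α (combine σ η) ≤ bound α (Hdown α (cq σ)) (Hdown α (cq η))) :=
  One.renyi_exact One.cp_high One.cp_low h₀ h₁ σ η hσ hη h

end Pool.Agent.Results.MP_560646_mp.RenyiOneSided
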