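import Pool.Agent.Mg.F560646.G80cfac

namespace Pool.Agent.Results.MP_560646_mp.VnOneSided

open Pool.Agent.MP_560646_mp
open scoped ComplexOrder

theorem result {n m : Type} [Fintype n] [DecidableEq n] [Fintype m] [DecidableEq m]
    (σ : ZMod 2 → Matrix n n ℂ) (η : ZMod 2 → Matrix m m ℂ)
    (hσ : ∀ x, (σ x).PosSemidef ∧ Matrix.trace (σ x) = 1)
    (hη : ∀ x, (η x).PosSemidef ∧ Matrix.trace (η x) = 1)
    (h : Commute (η 0) (η 1) ∨ ∃ c : ℝ, ∀ x, η x * η x = c • η x) :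
    bound1 (Hvn (cq σ)) (Hvn (cq η)) ≤ Hvn (combine σ η) :=
  vn_one_sided σ η hσ hη h

end Pool.Agent.Results.MP_560646_mp.VnOneSided
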